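import Pool.Agent.H47.KS.Targets

/-!
# Rows INT, UNI, MIS, OFF of the board `ksu_modules`
-/

set_option autoImplicit false

noncomputable section

namespace Pool.Agent.H5.KSU

open Finset Pool.Agent.H47.KS Pool.Agent.H37.SP

theorem pf_MIS : T_MIS := by
  intro U J hJ
  have h1 : U.powerset.filter (fun S => Disjoint S J) = (U \ J).powerset := by
    ext S
    rw [mem_filter, mem_powerset, mem_powerset, subset_sdiff]
  rw [h1, card_powerset, ← pow_add, card_sdiff_of_subset hJ,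
    Nat.sub_add_cancel (card_le_card hJ)]

theorem core (L : ℤ) (hL : 1 ≤ L) (c u1 u2 u3 v1 v2 v3 : ℤ) (hc : c ≠ 0) (h1 : u1 * v1 = c)
    (h2 : u2 * v2 = c) (h3 : u3 * v3 = c) (d12 : u1 ≠ u2) (d23 : u2 ≠ u3) (d31 : u3 ≠ u1)
    (b12 : |u1 - u2| ≤ 2 * L) (b23 : |u2 - u3| ≤ 2 * L) (b31 : |u3 - u1| ≤ 2 * L)
    (hv : |v1| ≤ |u1|) (g1 : 16 * L ^ 3 < |u1|) (g2 : 16 * L ^ 3 < |u2|)
    (g3 : 16 * L ^ 3 < |u3|) : False := by
  have hL2 : L ≤ L ^ 3 := by nlinarith [sq_nonneg (L - 1), sq_nonneg L]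
  set Dt := v1 * (u2 - u3) + v2 * (u3 - u1) + v3 * (u1 - u2) with hDt
  have e1 : Dt * (u1 * u2 * u3) = -c * ((u1 - u2) * (u2 - u3) * (u3 - u1)) := by
    rw [hDt]
    linear_combination (u2 - u3) * u2 * u3 * h1 + (u3 - u1) * u3 * u1 * h2 +
      (u1 - u2) * u1 * u2 * h3
  have e2 : Dt ≠ 0 := by
    intro h
    rw [h, zero_mul] at e1
    have : -c * ((u1 - u2) * (u2 - u3) * (u3 - u1)) ≠ 0 := by
      refine mul_ne_zero (neg_ne_zero.2 hc) (mul_ne_zero (mul_ne_zero ?_ ?_) ?_)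
      · exact sub_ne_zero.2 d12
      · exact sub_ne_zero.2 d23
      · exact sub_ne_zero.2 d31
    exact this e1.symm
  have e3 : 1 ≤ |Dt| := Int.one_le_abs e2
  have e4 : |Dt| * (|u1| * |u2| * |u3|) = |c| * (|u1 - u2| * |u2 - u3| * |u3 - u1|) := by
    have := congrArg abs e1
    rw [abs_mul, abs_mul, abs_mul, abs_mul, abs_mul, abs_mul, abs_neg] at this
    exact this
  have p1 : 0 < |u1| := lt_of_le_of_lt (by positivity) g1
  have p2 : 0 < |u2| := lt_of_le_of_lt (by positivity) g2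
  have p3 : 0 < |u3| := lt_of_le_of_lt (by positivity) g3
  have e5 : |u1| * |u2| * |u3| ≤ |Dt| * (|u1| * |u2| * |u3|) := by
    have : 0 < |u1| * |u2| * |u3| := by positivity
    nlinarith
  have e6 : |u1 - u2| * |u2 - u3| * |u3 - u1| ≤ (2 * L) * (2 * L) * (2 * L) := by
    have hh : (0 : ℤ) ≤ 2 * L := by omega
    exact mul_le_mul (mul_le_mul b12 b23 (abs_nonneg _) hh) b31 (abs_nonneg _)
      (mul_nonneg hh hh)
  have e7 : |c| = |u1| * |v1| := by rw [← h1, abs_mul]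
  have e8 : |u1| * |u2| * |u3| ≤ |u1| * |v1| * (8 * L ^ 3) := by
    calc |u1| * |u2| * |u3| ≤ |c| * (|u1 - u2| * |u2 - u3| * |u3 - u1|) := e5.trans e4.le
      _ ≤ |c| * ((2 * L) * (2 * L) * (2 * L)) := mul_le_mul_of_nonneg_left e6 (abs_nonneg _)
      _ = |u1| * |v1| * (8 * L ^ 3) := by rw [e7]; ring
  have e9 : |u2| * |u3| ≤ |v1| * (8 * L ^ 3) := by
    have : |u1| * (|u2| * |u3|) ≤ |u1| * (|v1| * (8 * L ^ 3)) := by
      calc |u1| * (|u2| * |u3|) = |u1| * |u2| * |u3| := by ring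
        _ ≤ |u1| * |v1| * (8 * L ^ 3) := e8
        _ = |u1| * (|v1| * (8 * L ^ 3)) := by ring
    exact le_of_mul_le_mul_left this p1
  have e10 : |u1| ≤ 2 * |u2| := by
    have t1 : |u1| ≤ |u1 - u2| + |u2| := by
      have := abs_add_le (u1 - u2) u2
      rwa [sub_add_cancel] at this
    nlinarith
  have e11 : |u2| * |u3| ≤ |u2| * (16 * L ^ 3) := by
    have hL3 : 0 ≤ 8 * L ^ 3 := by positivity
    calc |u2| * |u3| ≤ |v1| * (8 * L ^ 3) := e9
      _ ≤ (2 * |u2|) * (8 * L ^ 3) := mul_le_mul_of_nonneg_right (hv.trans e10) hL3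
      _ = |u2| * (16 * L ^ 3) := by ring
  have e12 : |u3| ≤ 16 * L ^ 3 := le_of_mul_le_mul_left e11 p2
  omega

theorem sgn3 {M L a b c G : ℤ} (hM : L ≤ M) (h0 : 0 ≤ M) (ha : M < |a|) (hb : M < |b|)
    (hc : M < |c|) (a1 : G ≤ a) (a2 : a < G + L) (b1 : G ≤ b) (b2 : b < G + L)
    (c1 : G ≤ c) (c2 : c < G + L) :
    (M < a ∧ M < b ∧ M < c) ∨ (a < -M ∧ b < -M ∧ c < -M) := by
  rw [lt_abs] at ha hb hc
  omega

theorem pf_INT : T_INT := by
  intro L G G' b b' hb hG hG'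
  by_contra hcon
  push Not at hcon
  obtain ⟨x1, x2, x3, m1, m2, m3, n12, n13, n23⟩ := two_lt_card_iff.1 hcon
  rw [mem_inter, mem_image, mem_image] at m1 m2 m3
  obtain ⟨⟨l1, r1, q1⟩, ⟨k1, t1, w1⟩⟩ := m1
  obtain ⟨⟨l2, r2, q2⟩, ⟨k2, t2, w2⟩⟩ := m2
  obtain ⟨⟨l3, r3, q3⟩, ⟨k3, t3, w3⟩⟩ := m3
  rw [mem_Ico] at r1 r2 r3 t1 t2 t3
  have hL : (1 : ℤ) ≤ (L : ℤ) := by omega
  have hM : (L : ℤ) ≤ 16 * (L : ℤ) ^ 3 := by
    nlinarith [sq_nonneg ((L : ℤ) - 1), sq_nonneg (L : ℤ)]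
  have s1 := sgn3 hM (by omega) (hG l1 r1.1 r1.2) (hG l2 r2.1 r2.2) (hG l3 r3.1 r3.2)
    r1.1 r1.2 r2.1 r2.2 r3.1 r3.2
  have s2 := sgn3 hM (by omega) (hG' k1 t1.1 t1.2) (hG' k2 t2.1 t2.2) (hG' k3 t3.1 t3.2)
    t1.1 t1.2 t2.1 t2.2 t3.1 t3.2
  have f1 := two_C2 l1
  have f2 := two_C2 l2
  have f3 := two_C2 l3
  have g1 := two_C2 k1
  have g2 := two_C2 k2
  have g3 := two_C2 k3
  have c1 : (l1 + k1 - 1) * (l1 - k1) = 2 * (b' - b) := by
    have : 2 * C2 l1 - 2 * C2 k1 = 2 * (b' - b) := by omega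
    rw [f1, g1] at this
    linear_combination this
  have c2 : (l2 + k2 - 1) * (l2 - k2) = 2 * (b' - b) := by
    have : 2 * C2 l2 - 2 * C2 k2 = 2 * (b' - b) := by omega
    rw [f2, g2] at this
    linear_combination this
  have c3 : (l3 + k3 - 1) * (l3 - k3) = 2 * (b' - b) := by
    have : 2 * C2 l3 - 2 * C2 k3 = 2 * (b' - b) := by omega
    rw [f3, g3] at this
    linear_combination this
  have hc : 2 * (b' - b) ≠ 0 := by omega
  have dl12 : l1 ≠ l2 := by
    intro h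
    rw [h] at q1
    exact n12 (q1.symm.trans q2)
  have dl13 : l1 ≠ l3 := by
    intro h
    rw [h] at q1
    exact n13 (q1.symm.trans q3)
  have dl23 : l2 ≠ l3 := by
    intro h
    rw [h] at q2
    exact n23 (q2.symm.trans q3)
  have key : ∀ (l k l' k' : ℤ), (l + k - 1) * (l - k) = 2 * (b' - b) →
      (l' + k' - 1) * (l' - k') = 2 * (b' - b) → l ≠ l' →
      (l + k - 1 ≠ l' + k' - 1 ∧ l - k ≠ l' - k') := by
    intro l k l' k' e1 e2 hne
    constructor
    · intro h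
      have h5 : l + k - 1 ≠ 0 := by
        intro h0
        rw [h0, zero_mul] at e1
        exact hc e1.symm
      have h6 : (l + k - 1) * (l - k) = (l + k - 1) * (l' - k') := by
        rw [e1, h, e2]
      have h7 := mul_left_cancel₀ h5 h6
      omega
    · intro h
      have h5 : l - k ≠ 0 := by
        intro h0
        rw [h0, mul_zero] at e1
        exact hc e1.symm
      have h6 : (l + k - 1) * (l - k) = (l' + k' - 1) * (l - k) := by
        rw [e1, h, e2]
      have h7 := mul_right_cancel₀ h5 h6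
      omega
  have k12 := key l1 k1 l2 k2 c1 c2 dl12
  have k23 := key l2 k2 l3 k3 c2 c3 dl23
  have k31 := key l3 k3 l1 k1 c3 c1 (Ne.symm dl13)
  have bd : ∀ z : ℤ, -(2 * (L : ℤ)) ≤ z → z ≤ 2 * (L : ℤ) → |z| ≤ 2 * (L : ℤ) :=
    fun z h1 h2 => abs_le.2 ⟨h1, h2⟩
  have big : ∀ z : ℤ, (16 * (L : ℤ) ^ 3 < z ∨ 16 * (L : ℤ) ^ 3 < -z) → 16 * (L : ℤ) ^ 3 < |z| :=
    fun z h => lt_abs.2 h
  have cmp : ∀ z w : ℤ, (-w ≤ z ∧ z ≤ w) ∨ (w ≤ z ∧ z ≤ -w) → |z| ≤ |w| := by
    intro z w h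
    rcases h with h | h
    · exact (abs_le.2 h).trans (le_abs_self w)
    · exact (abs_le.2 ⟨by omega, h.2⟩ : |z| ≤ -w).trans (neg_le_abs w)
  rcases s1 with s1 | s1 <;> rcases s2 with s2 | s2
  · exact core L hL _ (l1 + k1 - 1) (l2 + k2 - 1) (l3 + k3 - 1) _ _ _ hc c1 c2 c3 k12.1 k23.1
      k31.1 (bd _ (by omega) (by omega)) (bd _ (by omega) (by omega))
      (bd _ (by omega) (by omega)) (cmp _ _ (by omega)) (big _ (by omega)) (big _ (by omega))
      (big _ (by omega))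
  · exact core L hL _ (l1 - k1) (l2 - k2) (l3 - k3) (l1 + k1 - 1) (l2 + k2 - 1) (l3 + k3 - 1) hc
      (by rw [mul_comm]; exact c1) (by rw [mul_comm]; exact c2) (by rw [mul_comm]; exact c3)
      k12.2 k23.2 k31.2 (bd _ (by omega) (by omega)) (bd _ (by omega) (by omega))
      (bd _ (by omega) (by omega)) (cmp _ _ (by omega)) (big _ (by omega)) (big _ (by omega))
      (big _ (by omega))
  · exact core L hL _ (l1 - k1) (l2 - k2) (l3 - k3) (l1 + k1 - 1) (l2 + k2 - 1) (l3 + k3 - 1) hc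
      (by rw [mul_comm]; exact c1) (by rw [mul_comm]; exact c2) (by rw [mul_comm]; exact c3)
      k12.2 k23.2 k31.2 (bd _ (by omega) (by omega)) (bd _ (by omega) (by omega))
      (bd _ (by omega) (by omega)) (cmp _ _ (by omega)) (big _ (by omega)) (big _ (by omega))
      (big _ (by omega))
  · exact core L hL _ (l1 + k1 - 1) (l2 + k2 - 1) (l3 + k3 - 1) _ _ _ hc c1 c2 c3 k12.1 k23.1
      k31.1 (bd _ (by omega) (by omega)) (bd _ (by omega) (by omega))
      (bd _ (by omega) (by omega)) (cmp _ _ (by omega)) (big _ (by omega)) (big _ (by omega))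
      (big _ (by omega))

/-- the image of an interval -/
def Aset (b G : ℤ) (L : ℕ) : Finset ℤ := (Finset.Ico G (G + L)).image (fun l => b + C2 l)

theorem card_Aset (b G : ℤ) (L : ℕ)
    (hG : ∀ l : ℤ, G ≤ l → l < G + L → 16 * (L : ℤ) ^ 3 < |l|) : (Aset b G L).card = L := by
  unfold Aset
  rw [card_image_of_injOn, Int.card_Ico]
  · simp
  intro l hl l' hl' h
  rw [Finset.mem_coe, mem_Ico] at hl hl'
  have hL : (1 : ℤ) ≤ (L : ℤ) := by omega
  have hM : (L : ℤ) ≤ 16 * (L : ℤ) ^ 3 := by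
    nlinarith [sq_nonneg ((L : ℤ) - 1), sq_nonneg (L : ℤ)]
  have s1 := sgn3 hM (by omega) (hG l hl.1 hl.2) (hG l' hl'.1 hl'.2) (hG l hl.1 hl.2)
    hl.1 hl.2 hl'.1 hl'.2 hl.1 hl.2
  have h2 : C2 l = C2 l' := by
    have h3 : b + C2 l = b + C2 l' := h
    omega
  have h3 : (l - l') * (l + l' - 1) = 0 := by
    have e1 := two_C2 l
    have e2 := two_C2 l'
    rw [h2] at e1
    linear_combination e2 - e1
  rcases mul_eq_zero.1 h3 with h4 | h4 <;> omega

theorem pf_UNI (hINT : T_INT) : T_UNI := by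
  intro d L b G hb hG
  have main : ∀ s : Finset (Fin d), s.card * L ≤
      (s.biUnion (fun i => Aset (b i) (G i) L)).card + s.card ^ 2 := by
    intro s
    classical
    induction s using Finset.induction_on with
    | empty => simp
    | insert i s hi ih =>
      rw [biUnion_insert, card_insert_of_notMem hi]
      have h1 := card_union_add_card_inter (Aset (b i) (G i) L)
        (s.biUnion (fun i => Aset (b i) (G i) L))
      have h2 : (Aset (b i) (G i) L ∩ s.biUnion (fun i => Aset (b i) (G i) L)).card ≤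
          s.card * 2 := by
        rw [inter_biUnion]
        refine card_biUnion_le_card_mul _ _ _ fun j hj => ?_
        refine hINT L (G i) (G j) (b i) (b j) ?_ (hG i) (hG j)
        intro h
        have := hb h
        rw [this] at hi
        exact hi hj
      rw [card_Aset _ _ _ (hG i)] at h1
      nlinarith
  have := main univ
  rw [card_univ, Fintype.card_fin] at this
  exact this

theorem sum01 {N : ℕ} (s : Fin N → ℤ) (hs : ∀ x, s x = 0 ∨ s x = 1) (Y : Finset (Fin N)) :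
    0 ≤ ∑ x ∈ Y, s x ∧ ∑ x ∈ Y, s x ≤ (Y.card : ℤ) := by
  constructor
  · exact sum_nonneg fun x _ => by rcases hs x with h | h <;> omega
  · refine (sum_le_card_nsmul Y s 1 fun x _ => ?_).trans ?_
    · rcases hs x with h | h <;> omega
    · simp

theorem Aset_prog (b G : ℤ) (L : ℕ) : Aset b G L = prog (b + C2 G) G 1 L := by
  unfold Aset prog
  ext z
  rw [mem_image, mem_image]
  constructor
  · rintro ⟨l, hl, rfl⟩
    rw [mem_Ico] at hl
    refine ⟨(l - G).toNat, ?_, ?_⟩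
    · rw [mem_range]
      omega
    · have h1 : (((l - G).toNat : ℕ) : ℤ) = l - G := Int.toNat_of_nonneg (by omega)
      rw [h1]
      have h2 := C2_add G (l - G)
      rw [show G + (l - G) = l by ring] at h2
      rw [h2]
      ring
  · rintro ⟨t, ht, rfl⟩
    rw [mem_range] at ht
    refine ⟨G + t, ?_, ?_⟩
    · rw [mem_Ico]
      omega
    · rw [C2_add]
      ring

theorem pf_OFF (hVAL : T_VAL) (hUNI : T_UNI) : T_OFF := by
  intro P N G C K I Z wK wI sK sI T hP hX hg hT hd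
  obtain ⟨V, hV, cV⟩ := exists_subset_card_eq hd
  have ex : ∀ i : Fin P.d, ∃ Y ∈ T, off G C wK wI sK sI Y =
      ((V.equivFin.symm (Fin.cast cV.symm i) : {x // x ∈ V}) : ℤ) := by
    intro i
    have h1 := hV (V.equivFin.symm (Fin.cast cV.symm i)).2
    obtain ⟨Y, hY, e⟩ := mem_image.1 h1
    exact ⟨Y, hY, e⟩
  choose Y hYT hYe using ex
  set b : Fin P.d → ℤ := fun i => off G C wK wI sK sI (Y i) with hb
  set g : Fin P.d → ℤ := fun i => slp wK wI sK sI (Y i) with hgdef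
  have hinj : Function.Injective b := by
    intro i j hij
    have h1 : off G C wK wI sK sI (Y i) = off G C wK wI sK sI (Y j) := hij
    rw [hYe, hYe] at h1
    have h2 := Subtype.ext h1
    have h3 := V.equivFin.symm.injective h2
    exact Fin.cast_injective _ h3
  have hn : P.n = 8 * P.nu := rfl
  have hnu := hP.nu1
  have hslp : ∀ i, |g i - (wK - wI)| ≤ 8 * (P.nu : ℤ) := by
    intro i
    have h1 := sum01 sK hX.tK (Y i)
    have h2 := sum01 sI hX.tI (Y i)
    have h3 : ((Y i).card : ℤ) ≤ 8 * (P.nu : ℤ) := by exact_mod_cast (hT _ (hYT i)).2.2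
    show |wK - wI + ∑ x ∈ Y i, sI x - ∑ x ∈ Y i, sK x - (wK - wI)| ≤ _
    rw [abs_le]
    constructor <;> linarith [h1.1, h1.2, h2.1, h2.2]
  have hg0 : (P.g0 : ℤ) = 8192 * (P.nu : ℤ) ^ 3 := by
    unfold Par.g0
    rw [hn]
    push_cast
    ring
  have hbig : ∀ i, ∀ l : ℤ, g i ≤ l → l < g i + ((4 * P.nu : ℕ) : ℤ) →
      16 * (((4 * P.nu : ℕ) : ℤ)) ^ 3 < |l| := by
    intro i l h1 h2
    push_cast at h2 ⊢
    have h3 := hslp i
    have h4 : (1 : ℤ) ≤ (P.nu : ℤ) := by exact_mod_cast hnu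
    have h5 : (P.nu : ℤ) ≤ (P.nu : ℤ) ^ 3 := by
      nlinarith [sq_nonneg ((P.nu : ℤ) - 1), sq_nonneg (P.nu : ℤ)]
    have h6 : |wK - wI| ≤ |l| + 12 * (P.nu : ℤ) := by
      have e1 : |wK - wI - l| ≤ 12 * (P.nu : ℤ) := by
        rw [abs_le] at h3 ⊢
        constructor <;> linarith [h3.1, h3.2]
      have e2 := abs_add_le (wK - wI - l) l
      rw [sub_add_cancel] at e2
      linarith
    rw [hg0] at hg
    have e4 : 16 * (4 * (P.nu : ℤ)) ^ 3 = 1024 * (P.nu : ℤ) ^ 3 := by ring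
    rw [e4]
    nlinarith
  have huni := hUNI P.d (4 * P.nu) b g hinj hbig
  refine ⟨(univ : Finset (Fin P.d)).biUnion (fun i => Aset (b i) (g i) (4 * P.nu)), ?_, ?_, ?_⟩
  · right
    right
    refine ⟨fun i => b i + C2 (g i), g, fun _ => 1, fun i => by simp, ?_⟩
    refine biUnion_congr rfl fun i _ => ?_
    exact Aset_prog (b i) (g i) (4 * P.nu)
  · intro z hz
    rw [mem_biUnion] at hz
    obtain ⟨i, _, hz⟩ := hz
    unfold Aset at hz
    rw [mem_image] at hz
    obtain ⟨l, hl, rfl⟩ := hz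
    rw [mem_Ico] at hl
    have hYi := hT _ (hYT i)
    have ht : (l - g i).toNat ≤ (Y i).card := by
      have := hl.2
      push_cast at this
      have h8 := hYi.2.1
      omega
    have h1 : (((l - g i).toNat : ℕ) : ℤ) = l - g i := Int.toNat_of_nonneg (by omega)
    have hv := hVAL P N G C K I Z (Y i) wK wI sK sI (l - g i).toNat hP hX hYi.1
      (by rw [hn]; exact hYi.2.2) ht
    rw [h1] at hv
    have e : l - g i + slp wK wI sK sI (Y i) = l := by
      show l - slp wK wI sK sI (Y i) + slp wK wI sK sI (Y i) = l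
      ring
    rw [e] at hv
    refine ⟨hv.1, hv.2.trans ?_⟩
    have h9 : P.n * P.k ≤ P.L1 := by
      have := hP.L1
      nlinarith [Nat.zero_le (P.n * P.k)]
    exact_mod_cast h9
  · have htd := hP.td
    have : P.d * (4 * P.nu) = 4 * P.nu * P.d := by ring
    have h10 : P.d * (4 * P.nu) ≤
      ((univ : Finset (Fin P.d)).biUnion (fun i => Aset (b i) (g i) (4 * P.nu))).card +
        P.d ^ 2 := huni
    omega

end Pool.Agent.H5.KSU
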