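import Pool.Agent.H47.KS.Targets

/-!
# Rows WL, WS, CSP, QF of the board `ksu_modules`
-/

set_option autoImplicit false

noncomputable section

namespace Pool.Agent.H5.KSU

open Finset Pool.Agent.H47.KS Pool.Agent.H37.SP

variable {P : Par} {N : ℕ} {G : SimpleGraph (Fin N)} {C K I : Finset (Fin N)} {wK wI : ℤ}

theorem disjO (hb : Base P G C K I wK wI) {K' I' : Finset (Fin N)} (hK : K' ⊆ K) (hI : I' ⊆ I) :
    Disjoint C (K' ∪ I') := by
  rw [Finset.disjoint_union_right]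
  exact ⟨(hb.dKC.mono_left hK).symm, (hb.dIC.mono_left hI).symm⟩

theorem disjKI (hb : Base P G C K I wK wI) {K' I' : Finset (Fin N)} (hK : K' ⊆ K) (hI : I' ⊆ I) :
    Disjoint K' I' :=
  hb.dKI.mono hK hI

theorem sumC (hb : Base P G C K I wK wI) {K' I' : Finset (Fin N)} (hK : K' ⊆ K) (hI : I' ⊆ I) :
    ∑ o ∈ K' ∪ I', dg G C o = (K'.card : ℤ) * wK + (I'.card : ℤ) * wI := by
  rw [sum_union (disjKI hb hK hI)]
  rw [sum_congr rfl (fun a ha => hb.wtK a (hK ha)), sum_congr rfl (fun a ha => hb.wtI a (hI ha))]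
  rw [sum_const, sum_const, nsmul_eq_mul, nsmul_eq_mul]

theorem sum_dg_nonneg (X O : Finset (Fin N)) : 0 ≤ ∑ o ∈ O, dg G X o :=
  sum_nonneg fun o _ => dg_nonneg G X o

theorem sum_dg_le (X O : Finset (Fin N)) : ∑ o ∈ O, dg G X o ≤ (O.card : ℤ) * X.card := by
  refine (sum_le_card_nsmul _ _ _ fun o _ => dg_le G X o).trans ?_
  rw [nsmul_eq_mul]

theorem ee_two_le (A : Finset (Fin N)) : 2 * ee G A ≤ (A.card : ℤ) * ((A.card : ℤ) - 1) := by
  have h1 := ee_le G A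
  have h2 := two_C2 (A.card : ℤ)
  omega

theorem card_le_sq {a n : ℕ} (h : a ≤ n) : (a : ℤ) * a ≤ (n : ℤ) ^ 2 := by
  have : (a : ℤ) ≤ n := by exact_mod_cast h
  have h0 : (0 : ℤ) ≤ a := Int.natCast_nonneg a
  nlinarith

theorem pf_WL : T_WL := by
  intro P N G C K I X K' I' wK wI i hP hb hX hXn hi hK hI hK' hI'
  have hd := disjO hb hK hI
  have hc : (K' ∪ I').card = X.card := by
    rw [card_union_of_disjoint (disjKI hb hK hI), hK', hI', hXn]
    omega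
  refine ⟨?_, ?_⟩
  · rw [card_swap hX hd hc, hb.cC]
  have h1 := ee_union G (hd.mono_left (sdiff_subset (s := C) (t := X)))
  have h2 : ∑ o ∈ K' ∪ I', dg G (C \ X) o =
      ∑ o ∈ K' ∪ I', dg G C o - ∑ o ∈ K' ∪ I', dg G X o := by
    rw [← sum_sub_distrib]
    exact sum_congr rfl fun x _ => dg_sdiff G hX x
  have h3 := sumC hb hK hI
  have h4 : (K'.card : ℤ) = (P.n : ℤ) - i := by
    rw [hK', Nat.cast_sub hi]
  have h5 : (I'.card : ℤ) = i := by rw [hI']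
  rw [h4, h5] at h3
  have h6 : ee G ((C \ X) ∪ (K' ∪ I')) - posL P G C X wK wI i =
      ee G (K' ∪ I') - ∑ o ∈ K' ∪ I', dg G X o := by
    unfold posL
    rw [h1, h2, h3]
    ring
  rw [h6]
  have b1 := ee_nonneg G (K' ∪ I')
  have b2 := ee_two_le (G := G) (K' ∪ I')
  have b3 := sum_dg_nonneg (G := G) X (K' ∪ I')
  have b4 := sum_dg_le (G := G) X (K' ∪ I')
  rw [hc, hXn] at b2 b4
  have b5 : (0 : ℤ) ≤ (P.n : ℤ) := Int.natCast_nonneg _
  have b6 : (0 : ℤ) ≤ (P.n : ℤ) ^ 2 := by positivity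
  rw [abs_le]
  constructor <;> nlinarith

theorem pf_WS : T_WS := by
  intro P N G C K I X K' I' wK wI hP hb hg hX hXn hK hI hKI
  have hd := disjO hb hK hI
  have hc : (K' ∪ I').card = X.card := by
    rw [card_union_of_disjoint (disjKI hb hK hI), hKI]
  have h1 := ee_swap G hX hd
  have h3 := sumC hb hK hI
  have h4 : ∑ x ∈ X, (wK - dg G C x) = (X.card : ℤ) * wK - ∑ x ∈ X, dg G C x := by
    rw [sum_sub_distrib, sum_const, nsmul_eq_mul]
  have h5 : (X.card : ℤ) = (K'.card : ℤ) + I'.card := by exact_mod_cast hKI.symm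
  have h6 : ee G ((C \ X) ∪ (K' ∪ I')) - (ee G C + ∑ x ∈ X, (wK - dg G C x)) =
      ee G X + ee G (K' ∪ I') - ∑ o ∈ K' ∪ I', dg G X o + (I'.card : ℤ) * (wI - wK) := by
    rw [h1, h4, h3, h5]
    ring
  rw [h6]
  have b1 := ee_nonneg G (K' ∪ I')
  have b2 := ee_two_le (G := G) (K' ∪ I')
  have b3 := sum_dg_nonneg (G := G) X (K' ∪ I')
  have b4 := sum_dg_le (G := G) X (K' ∪ I')
  have b5 := ee_nonneg G X
  have b6 := ee_two_le (G := G) X
  rw [hc] at b2 b4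
  have b7 := card_le_sq hXn
  have b8 : (0 : ℤ) ≤ (X.card : ℤ) := Int.natCast_nonneg _
  have b9 : (I'.card : ℤ) ≤ (P.n : ℤ) := by
    have : I'.card ≤ P.n := by omega
    exact_mod_cast this
  have b10 : (0 : ℤ) ≤ (I'.card : ℤ) := Int.natCast_nonneg _
  have b11 : |(I'.card : ℤ) * (wI - wK)| ≤ (P.n : ℤ) * (P.g0 : ℤ) := by
    rw [abs_mul, abs_of_nonneg b10, abs_sub_comm]
    exact mul_le_mul b9 hg.le (abs_nonneg _) (by positivity)
  have b12 : (P.H : ℤ) = (P.n : ℤ) * (P.g0 : ℤ) + (P.n : ℤ) ^ 2 := by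
    unfold Par.H
    push_cast
    ring
  rw [b12]
  rw [abs_le] at b11 ⊢
  constructor <;> nlinarith [b11.1, b11.2]

theorem pf_QF : T_QF := by
  intro N G C wK wI sK sI
  refine ⟨fun x => -2 * dg G C x + 2 * wI - (2 * (wK - wI) - 1) * (sI x - sK x),
    fun x y => aa G x y - (sI x + sI y) - (sI x - sK x) * (sI y - sK y), ?_, ?_⟩
  · intro x y
    show aa G x y - (sI x + sI y) - (sI x - sK x) * (sI y - sK y) =
      aa G y x - (sI y + sI x) - (sI y - sK y) * (sI x - sK x)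
    rw [aa_symm]
    ring
  intro Y
  have h1 : ∑ x ∈ Y, (-2 * dg G C x + 2 * wI - (2 * (wK - wI) - 1) * (sI x - sK x)) =
      -2 * ∑ x ∈ Y, dg G C x + (Y.card : ℤ) * (2 * wI) -
        (2 * (wK - wI) - 1) * (∑ x ∈ Y, sI x - ∑ x ∈ Y, sK x) := by
    rw [sum_sub_distrib, sum_add_distrib, ← mul_sum, ← mul_sum, ← mul_sum, sum_sub_distrib,
      sum_const, nsmul_eq_mul]
    ring
  have h2 : ∑ x ∈ Y, ∑ y ∈ Y, (aa G x y - (sI x + sI y) - (sI x - sK x) * (sI y - sK y)) =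
      2 * ee G Y - 2 * ((Y.card : ℤ) * ∑ x ∈ Y, sI x) -
        (∑ x ∈ Y, sI x - ∑ x ∈ Y, sK x) * (∑ x ∈ Y, sI x - ∑ x ∈ Y, sK x) := by
    have e1 : ∀ x ∈ Y, ∑ y ∈ Y, (aa G x y - (sI x + sI y) - (sI x - sK x) * (sI y - sK y)) =
        dg G Y x - ((Y.card : ℤ) * sI x + ∑ y ∈ Y, sI y) -
          (sI x - sK x) * (∑ y ∈ Y, sI y - ∑ y ∈ Y, sK y) := by
      intro x _
      rw [sum_sub_distrib, sum_sub_distrib, sum_add_distrib, ← mul_sum, sum_sub_distrib,
        sum_const, nsmul_eq_mul]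
      rfl
    rw [sum_congr rfl e1, sum_sub_distrib, sum_sub_distrib, sum_add_distrib, ← sum_mul,
      sum_sub_distrib, sum_const, nsmul_eq_mul, ← mul_sum, ← two_mul_ee]
    ring
  rw [h1, h2]
  unfold off slp
  rw [sum_empty, sum_empty, sum_empty, card_empty, ee_empty]
  have h3 := two_C2 (wK - wI + ∑ x ∈ Y, sI x - ∑ x ∈ Y, sK x)
  have h4 := two_C2 (wK - wI + 0 - 0)
  push_cast
  linear_combination h4 - h3

theorem ee_clq {A : Finset (Fin N)} (h : ∀ a ∈ A, ∀ b ∈ A, a ≠ b → aa G a b = 1) :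
    2 * ee G A = (A.card : ℤ) * ((A.card : ℤ) - 1) := by
  rw [two_mul_ee]
  have h1 : ∀ x ∈ A, dg G A x = (A.card : ℤ) - 1 := by
    intro x hx
    unfold dg
    rw [← add_sum_erase A _ hx, aa_self, zero_add,
      sum_congr rfl (fun y hy => h x hx y (mem_of_mem_erase hy) (ne_of_mem_erase hy).symm),
      sum_const, card_erase_of_mem hx, nsmul_eq_mul, mul_one, Nat.cast_sub (card_pos.2 ⟨x, hx⟩)]
    push_cast
    ring
  rw [sum_congr rfl h1, sum_const, nsmul_eq_mul]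

theorem ee_ind {A : Finset (Fin N)} (h : ∀ a ∈ A, ∀ b ∈ A, a ≠ b → aa G a b = 0) :
    2 * ee G A = 0 := by
  rw [two_mul_ee]
  refine sum_eq_zero fun x hx => sum_eq_zero fun y hy => ?_
  by_cases hxy : x = y
  · rw [hxy, aa_self]
  · exact h x hx y hy hxy

theorem pf_CSP : T_CSP := by
  intro P N G C K I X K3 I3 wK wI s s' h hP hb hX hX1 hX2 hK hI hK3 hI3 hh hs hs' hKI
  refine ⟨ee G C - ∑ x ∈ X, dg G C x + ee G X + (X.card : ℤ) * wK + C2 X.card - (X.card : ℤ) * s,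
    -wK + wI - ((X.card : ℤ) - 1) + h * ((X.card : ℤ) - 1) + s - s', 1 - 2 * h, ?_, ?_⟩
  · rcases hh with rfl | rfl
    · left; norm_num
    · right; norm_num
  intro z hz
  unfold prog at hz
  rw [mem_image] at hz
  obtain ⟨t, ht, rfl⟩ := hz
  rw [mem_range] at ht
  have htj : t ≤ X.card := by
    have := hP.xnu
    omega
  obtain ⟨I', hI', cI'⟩ := exists_subset_card_eq (show t ≤ I3.card by omega)
  obtain ⟨K', hK', cK'⟩ := exists_subset_card_eq (show X.card - t ≤ K3.card by omega)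
  refine ⟨K', hK'.trans hK, I', hI'.trans hI, by omega, ?_⟩
  have hd := disjO hb (hK'.trans hK) (hI'.trans hI)
  have h1 := ee_swap G hX hd
  have h3 := sumC hb (hK'.trans hK) (hI'.trans hI)
  have c1 : (K'.card : ℤ) = (X.card : ℤ) - t := by rw [cK', Nat.cast_sub htj]
  have c2 : (I'.card : ℤ) = t := by rw [cI']
  have h4 := ee_union G (disjKI hb (hK'.trans hK) (hI'.trans hI))
  have h5 : 2 * ee G K' = (K'.card : ℤ) * ((K'.card : ℤ) - 1) :=
    ee_clq fun a ha b hb' => hb.clq a (hK (hK' ha)) b (hK (hK' hb'))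
  have h6 : 2 * ee G I' = 0 :=
    ee_ind fun a ha b hb' => hb.ind a (hI (hI' ha)) b (hI (hI' hb'))
  have h7 : ∑ b ∈ I', dg G K' b = (I'.card : ℤ) * ((K'.card : ℤ) * h) := by
    have e1 : ∀ b ∈ I', dg G K' b = (K'.card : ℤ) * h := by
      intro b hb'
      unfold dg
      rw [sum_congr rfl (fun a ha => (aa_symm G b a).trans (hKI a (hK' ha) b (hI' hb'))),
        sum_const, nsmul_eq_mul]
    rw [sum_congr rfl e1, sum_const, nsmul_eq_mul]
  have h8 : ∑ o ∈ K' ∪ I', dg G X o = (K'.card : ℤ) * s + (I'.card : ℤ) * s' := by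
    rw [sum_union (disjKI hb (hK'.trans hK) (hI'.trans hI)),
      sum_congr rfl (fun a ha => hs a (hK' ha)), sum_congr rfl (fun a ha => hs' a (hI' ha)),
      sum_const, sum_const, nsmul_eq_mul, nsmul_eq_mul]
  rw [c1, c2] at h3 h7 h8
  rw [c1] at h5
  have h9 := two_C2 (t : ℤ)
  have h10 := two_C2 (X.card : ℤ)
  have key : 2 * ee G ((C \ X) ∪ (K' ∪ I')) =
      2 * (ee G C - ∑ x ∈ X, dg G C x + ee G X + (X.card : ℤ) * wK + C2 X.card
        - (X.card : ℤ) * s +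
      (-wK + wI - ((X.card : ℤ) - 1) + h * ((X.card : ℤ) - 1) + s - s') * (t : ℤ) +
      (1 - 2 * h) * C2 (t : ℤ)) := by
    rw [h1, h3, h8, h4, h7]
    linear_combination h5 + h6 - h10 - (1 - 2 * h) * h9
  linarith

end Pool.Agent.H5.KSU
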